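import Mathlib

set_option autoImplicit false

/-!
# `∑ (4k-1)^m (-1/2)_k^4/k!^4`: no integer `d_m` works for `m = 13` (`p = 3`), `15` (`p = 5`),
`19` (`p = 7`), `27` (`p = 11`)
-/

namespace Pool.Agent.Results.MP_270153_nt.Fails

open Finset

/-- The rising factorial `(a)_k`. -/
def rising (a : ℚ) (k : ℕ) : ℚ := ∏ j ∈ range k, (a + j)

/-- `S_m(N) = ∑_{k=0}^N (4k-1)^m (-1/2)_k^4 / k!^4`. -/
def S (m N : ℕ) : ℚ :=
  ∑ k ∈ range (N + 1), (4 * (k : ℚ) - 1) ^ m * rising (-1 / 2) k ^ 4 / (k.factorial : ℚ) ^ 4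

/-- `x ≡ y (mod p^n)`: `x - y = p^n u/v` with integers `u`, `v` and `p ∤ v`. -/
def Cong (p n : ℕ) (x y : ℚ) : Prop :=
  ∃ u v : ℤ, ¬ (p : ℤ) ∣ v ∧ x - y = (p : ℚ) ^ n * ((u : ℚ) / v)

/-- the integers `4^k (-1/2)_k / k!` -/
def Z : ℕ → ℤ
  | 0 => 1
  | k + 1 => Z k * (2 * (2 * k - 1)) / (k + 1)

/-- the integers `256^N S_m(N)` -/
def U (m : ℕ) : ℕ → ℤ
  | 0 => (-1) ^ m
  | N + 1 => 256 * U m N + (4 * (N + 1) - 1) ^ m * Z (N + 1) ^ 4

theorem Z_spec : ∀ k : ℕ, k < 61 → ((k : ℤ) + 1) * Z (k + 1) = 2 * (2 * (k : ℤ) - 1) * Z k := by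
  decide +kernel

theorem Z_eq : ∀ k ≤ 61, rising (-1 / 2) k / (k.factorial : ℚ) = Z k / 4 ^ k := by
  intro k
  induction k with
  | zero => intro _; simp [rising, Z]
  | succ k ih =>
    intro hk
    have h1 := ih (by omega)
    have h2 := Z_spec k (by omega)
    have h3 : ((k : ℚ) + 1) * (Z (k + 1) : ℚ) = 2 * (2 * k - 1) * Z k := by exact_mod_cast h2
    have hk0 : ((k : ℚ) + 1) ≠ 0 := by positivity
    have hf : (k.factorial : ℚ) ≠ 0 := by positivity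
    have h4 : (Z (k + 1) : ℚ) = 2 * (2 * k - 1) * Z k / (k + 1) := by
      rw [eq_div_iff hk0, ← h3]; ring
    have h5 : rising (-1 / 2) (k + 1) = rising (-1 / 2) k * (-1 / 2 + k) := by
      rw [rising, prod_range_succ]; rfl
    have h6 : rising (-1 / 2) k = (Z k : ℚ) / 4 ^ k * k.factorial := by
      rw [← h1]; field_simp
    rw [h5, h6, h4, Nat.factorial_succ]
    push_cast
    field_simp
    ring

theorem S_eq (m : ℕ) : ∀ N ≤ 61, S m N = U m N / 256 ^ N := by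
  intro N
  induction N with
  | zero => intro _; simp [S, U, rising]
  | succ N ih =>
    intro hN
    have h1 := ih (by omega)
    have h2 := Z_eq (N + 1) hN
    rw [S, sum_range_succ, ← S, h1, mul_div_assoc, ← div_pow, h2, U]
    push_cast
    have h3 : (256 : ℚ) ^ (N + 1) = (4 ^ (N + 1)) ^ 4 := by
      rw [← pow_mul, show (256 : ℚ) = 4 ^ 4 by norm_num, ← pow_mul]; congr 1; ring
    rw [div_pow, ← h3, pow_succ]
    field_simp
    ring

theorem key {p m N₁ N₂ : ℕ} (hp : p.Prime) (h12 : N₁ ≤ N₂) (h61 : N₂ ≤ 61)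
    (h : ¬ (p : ℤ) ^ 5 ∣ p * 256 ^ (N₂ - N₁) * U m N₁ - U m N₂) (d : ℤ) :
    ¬ (Cong p 4 (S m N₁) (d * p) ∧ Cong p 5 (S m N₂) (d * p ^ 2)) := by
  rintro ⟨⟨u, v, hv, e1⟩, ⟨u', v', hv', e2⟩⟩
  have hv0 : (v : ℚ) ≠ 0 := by
    intro h0; apply hv; have : v = 0 := by exact_mod_cast h0
    rw [this]; exact dvd_zero _
  have hv0' : (v' : ℚ) ≠ 0 := by
    intro h0; apply hv'; have : v' = 0 := by exact_mod_cast h0
    rw [this]; exact dvd_zero _
  rw [S_eq m N₁ (by omega)] at e1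
  rw [S_eq m N₂ h61] at e2
  have e3 : (256 : ℚ) ^ N₂ = 256 ^ N₁ * 256 ^ (N₂ - N₁) := by rw [← pow_add]; congr 1; omega
  have h256 : (256 : ℚ) ^ N₁ ≠ 0 := by positivity
  have h256' : (256 : ℚ) ^ (N₂ - N₁) ≠ 0 := by positivity
  have e4 : ((p * 256 ^ (N₂ - N₁) * U m N₁ - U m N₂ : ℤ) : ℚ) * (v * v') =
      (p : ℚ) ^ 5 * (256 ^ N₂ * (u * v' - u' * v)) := by
    have f1 : (U m N₁ : ℚ) = (d * p + p ^ 4 * (u / v)) * 256 ^ N₁ := by
      rw [← e1]; field_simp; ring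
    have f2 : (U m N₂ : ℚ) = (d * p ^ 2 + p ^ 5 * (u' / v')) * 256 ^ N₂ := by
      rw [← e2]; field_simp; ring
    push_cast
    rw [f1, f2, e3]
    field_simp
    ring
  have e5 : (p * 256 ^ (N₂ - N₁) * U m N₁ - U m N₂ : ℤ) * (v * v') =
      (p : ℤ) ^ 5 * (256 ^ N₂ * (u * v' - u' * v)) := by exact_mod_cast e4
  have hpi : Prime (p : ℤ) := Nat.prime_iff_prime_int.1 hp
  apply h
  have hc : IsCoprime ((p : ℤ) ^ 5) (v * v') := by
    apply IsCoprime.pow_left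
    exact (hpi.coprime_iff_not_dvd.2 (fun hd => (hpi.dvd_or_dvd hd).elim hv hv'))
  exact hc.dvd_of_dvd_mul_right ⟨_, e5⟩

theorem c3 : ¬ ((3 : ℕ) : ℤ) ^ 5 ∣ (3 : ℕ) * 256 ^ (5 - 2) * U 13 2 - U 13 5 := by decide +kernel
theorem c5 : ¬ ((5 : ℕ) : ℤ) ^ 5 ∣ (5 : ℕ) * 256 ^ (13 - 3) * U 15 3 - U 15 13 := by decide +kernel
theorem c7 : ¬ ((7 : ℕ) : ℤ) ^ 5 ∣ (7 : ℕ) * 256 ^ (25 - 4) * U 19 4 - U 19 25 := by decide +kernel
theorem c11 : ¬ ((11 : ℕ) : ℤ) ^ 5 ∣ (11 : ℕ) * 256 ^ (61 - 6) * U 27 6 - U 27 61 := by decide +kernel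

/-- For `p = 3, 5, 7, 11` there is an odd `m` for which no integer `d` satisfies even the first
congruence for this `p` and `r = 1, 2`; in particular the assertion of the problem is false. -/
theorem result :
    (∀ p ∈ ({3, 5, 7, 11} : Set ℕ), ∃ m : ℕ, Odd m ∧ ¬ ∃ d : ℤ, ∀ r : ℕ, 1 ≤ r →
      Cong p (r + 3) (S m ((p ^ r + 1) / 2)) (d * p ^ r)) ∧
    ∃ m : ℕ, Odd m ∧ ¬ ∃ d : ℤ, ∀ p r : ℕ, p.Prime → p ≠ 2 → 1 ≤ r →
      Cong p (r + 3) (S m ((p ^ r + 1) / 2)) (d * p ^ r) ∧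
        Cong p (r + 3) (S m (p ^ r - 1)) (d * p ^ r) := by
  have main : ∀ p ∈ ({3, 5, 7, 11} : Set ℕ), ∃ m : ℕ, Odd m ∧ ¬ ∃ d : ℤ, ∀ r : ℕ, 1 ≤ r →
      Cong p (r + 3) (S m ((p ^ r + 1) / 2)) (d * p ^ r) := by
    intro p hp
    simp only [Set.mem_insert_iff, Set.mem_singleton_iff] at hp
    rcases hp with rfl | rfl | rfl | rfl
    · refine ⟨13, by decide, ?_⟩
      rintro ⟨d, hd⟩
      have h1 := hd 1 le_rfl
      have h2 := hd 2 (by norm_num)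
      norm_num at h1 h2
      exact key (p := 3) (m := 13) (N₁ := 2) (N₂ := 5) (by norm_num) (by norm_num) (by norm_num)
        c3 d ⟨by norm_num; exact h1, by norm_num; exact h2⟩
    · refine ⟨15, by decide, ?_⟩
      rintro ⟨d, hd⟩
      have h1 := hd 1 le_rfl
      have h2 := hd 2 (by norm_num)
      norm_num at h1 h2
      exact key (p := 5) (m := 15) (N₁ := 3) (N₂ := 13) (by norm_num) (by norm_num) (by norm_num)
        c5 d ⟨by norm_num; exact h1, by norm_num; exact h2⟩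
    · refine ⟨19, by decide, ?_⟩
      rintro ⟨d, hd⟩
      have h1 := hd 1 le_rfl
      have h2 := hd 2 (by norm_num)
      norm_num at h1 h2
      exact key (p := 7) (m := 19) (N₁ := 4) (N₂ := 25) (by norm_num) (by norm_num) (by norm_num)
        c7 d ⟨by norm_num; exact h1, by norm_num; exact h2⟩
    · refine ⟨27, by decide, ?_⟩
      rintro ⟨d, hd⟩
      have h1 := hd 1 le_rfl
      have h2 := hd 2 (by norm_num)
      norm_num at h1 h2
      exact key (p := 11) (m := 27) (N₁ := 6) (N₂ := 61) (by norm_num) (by norm_num) (by norm_num)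
        c11 d ⟨by norm_num; exact h1, by norm_num; exact h2⟩
  refine ⟨main, ?_⟩
  obtain ⟨m, hm, h⟩ := main 3 (by simp)
  refine ⟨m, hm, ?_⟩
  rintro ⟨d, hd⟩
  exact h ⟨d, fun r hr => (hd 3 r Nat.prime_three (by norm_num) hr).1⟩

end Pool.Agent.Results.MP_270153_nt.Fails
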